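import Pool.Agent.Helper14.W5.StD

/-!
# Fast kernel check of the coefficient sums `cS` (for helper4, project T7)

One pass over the list with one natural number as accumulator (Kronecker substitution, base `2^32`); all values are forced, and the pass is
organised as a binary tree, so that the recursion depth of the kernel is small.
-/

set_option autoImplicit false

namespace Pool.Agent.Helper16.T7

open Pool.Agent.Helper14.W5 (Tm aI bE lE wE oi4 mE gE cS M7)

/-- `f n`, `n` evaluated first. -/
noncomputable def force {α : Type} (n : ℕ) (f : ℕ → α) : α :=
  Nat.rec (motive := fun _ => α) (f 0) (fun m _ => f (Nat.succ m)) n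

theorem force_eq {α : Type} (n : ℕ) (f : ℕ → α) : force n f = f n := by
  cases n <;> rfl

/-- The residue of `z` modulo `m`. -/
noncomputable def rI (m : ℕ) (z : ℤ) : ℕ :=
  Int.rec (motive := fun _ => ℕ) (fun n => Nat.mod n m) (fun n => Nat.sub (Nat.sub m 1) (Nat.mod n m)) z

/-- Table of `∑ i < 7, (choose g i % 5) * 2^(32 i)`, `g < 25`, entries of `224` bits. -/
def tG : ℕ := 0x1000000040000000100000004000000010000000400000001000000020000000400000000000000010000000300000003000000010000000300000004000000000000000000000001000000020000000100000004000000040000000000000000000000000000000100000001000000000000000400000000000000000000000000000000000000010000000200000003000000010000000400000001000000040000000100000004000000030000000000000001000000030000000300000001000000010000000300000000000000000000000100000002000000010000000300000003000000000000000000000000000000010000000100000000000000030000000000000000000000000000000000000001000000030000000200000001000000040000000100000004000000010000000100000002000000000000000100000003000000030000000100000004000000020000000000000000000000010000000200000001000000020000000200000000000000000000000000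000001000000010000000000000002000000000000000000000000000000000000000100000004000000010000000100000004000000010000000400000001000000030000000100000000000000010000000300000003000000010000000200000001000000000000000000000001000000020000000100000001000000010000000000000000000000000000000100000001000000000000000100000000000000000000000000000000000000010000000000000000000000010000000400000001000000040000000100000000000000000000000000000001000000030000000300000001000000000000000000000000000000000000000100000002000000010000000000000000000000000000000000000000000000010000000100000000000000000000000000000000000000000000000000000001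

/-- Table of `∑ j < 7, (choose b j % 5) * 2^(224 j)`, `b < 25`, entries of `1568` bits. -/
def tZ : ℕ := 0x10000000000000000000000000000000000000000000000000000000400000000000000000000000000000000000000000000000000000001000000000000000000000000000000000000000000000000000000040000000000000000000000000000000000000000000000000000000100000000000000000000000000000000000000000000000000000004000000000000000000000000000000000000000000000000000000010000000000000000000000000000000000000000000000000000000200000000000000000000000000000000000000000000000000000004000000000000000000000000000000000000000000000000000000000000000000000000000000000000000000000000000000000000000100000000000000000000000000000000000000000000000000000003000000000000000000000000000000000000000000000000000000030000000000000000000000000000000000000000000000000000000100000000000000000000000000000000000000000000000000000003000000000000000000000000000000000000000000000000000000040000000000000000000000000000000000000000000000000000000000000000000000000000000000000000000000000000000000000000000000000000000000000000000000000000000000000000000000010000000000000000000000000000000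000000000000000000000000200000000000000000000000000000000000000000000000000000001000000000000000000000000000000000000000000000000000000040000000000000000000000000000000000000000000000000000000400000000000000000000000000000000000000000000000000000000000000000000000000000000000000000000000000000000000000000000000000000000000000000000000000000000000000000000000000000000000000000000000000000000000000000000000000000001000000000000000000000000000000000000000000000000000000010000000000000000000000000000000000000000000000000000000000000000000000000000000000000000000000000000000000000004000000000000000000000000000000000000000000000000000000000000000000000000000000000000000000000000000000000000000000000000000000000000000000000000000000000000000000000000000000000000000000000000000000000000000000000000000000000000000000000000000000000000000000000000000000000000000100000000000000000000000000000000000000000000000000000002000000000000000000000000000000000000000000000000000000030000000000000000000000000000000000000000000000000000000100000000000000000000000000000000000000000000000000000004000000000000000000000000000000000000000000000000000000010000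000000000000000000000000000000000000000000000000000400000000000000000000000000000000000000000000000000000001000000000000000000000000000000000000000000000000000000040000000000000000000000000000000000000000000000000000000300000000000000000000000000000000000000000000000000000000000000000000000000000000000000000000000000000000000000010000000000000000000000000000000000000000000000000000000300000000000000000000000000000000000000000000000000000003000000000000000000000000000000000000000000000000000000010000000000000000000000000000000000000000000000000000000100000000000000000000000000000000000000000000000000000003000000000000000000000000000000000000000000000000000000000000000000000000000000000000000000000000000000000000000000000000000000000000000000000000000000000000000000000001000000000000000000000000000000000000000000000000000000020000000000000000000000000000000000000000000000000000000100000000000000000000000000000000000000000000000000000003000000000000000000000000000000000000000000000000000000030000000000000000000000000000000000000000000000000000000000000000000000000000000000000000000000000000000000000000000000000000000000000000000000000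000000000000000000000000000000000000000000000000000000000000000000000000000000100000000000000000000000000000000000000000000000000000001000000000000000000000000000000000000000000000000000000000000000000000000000000000000000000000000000000000000000300000000000000000000000000000000000000000000000000000000000000000000000000000000000000000000000000000000000000000000000000000000000000000000000000000000000000000000000000000000000000000000000000000000000000000000000000000000000000000000000000000000000000000000000000000000000000010000000000000000000000000000000000000000000000000000000300000000000000000000000000000000000000000000000000000002000000000000000000000000000000000000000000000000000000010000000000000000000000000000000000000000000000000000000400000000000000000000000000000000000000000000000000000001000000000000000000000000000000000000000000000000000000040000000000000000000000000000000000000000000000000000000100000000000000000000000000000000000000000000000000000001000000000000000000000000000000000000000000000000000000020000000000000000000000000000000000000000000000000000000000000000000000000000000000000000000000000000000000000001000000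000000000000000000000000000000000000000000000000030000000000000000000000000000000000000000000000000000000300000000000000000000000000000000000000000000000000000001000000000000000000000000000000000000000000000000000000040000000000000000000000000000000000000000000000000000000200000000000000000000000000000000000000000000000000000000000000000000000000000000000000000000000000000000000000000000000000000000000000000000000000000000000000000000000100000000000000000000000000000000000000000000000000000002000000000000000000000000000000000000000000000000000000010000000000000000000000000000000000000000000000000000000200000000000000000000000000000000000000000000000000000002000000000000000000000000000000000000000000000000000000000000000000000000000000000000000000000000000000000000000000000000000000000000000000000000000000000000000000000000000000000000000000000000000000000000000000000000000000010000000000000000000000000000000000000000000000000000000100000000000000000000000000000000000000000000000000000000000000000000000000000000000000000000000000000000000000020000000000000000000000000000000000000000000000000000000000000000000000000000000000000000000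000000000000000000000000000000000000000000000000000000000000000000000000000000000000000000000000000000000000000000000000000000000000000000000000000000000000000000000000000000000000000000001000000000000000000000000000000000000000000000000000000040000000000000000000000000000000000000000000000000000000100000000000000000000000000000000000000000000000000000001000000000000000000000000000000000000000000000000000000040000000000000000000000000000000000000000000000000000000100000000000000000000000000000000000000000000000000000004000000000000000000000000000000000000000000000000000000010000000000000000000000000000000000000000000000000000000300000000000000000000000000000000000000000000000000000001000000000000000000000000000000000000000000000000000000000000000000000000000000000000000000000000000000000000000100000000000000000000000000000000000000000000000000000003000000000000000000000000000000000000000000000000000000030000000000000000000000000000000000000000000000000000000100000000000000000000000000000000000000000000000000000002000000000000000000000000000000000000000000000000000000010000000000000000000000000000000000000000000000000000000000000000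000000000000000000000000000000000000000000000000000000000000000000000000000000000000000000000000000000010000000000000000000000000000000000000000000000000000000200000000000000000000000000000000000000000000000000000001000000000000000000000000000000000000000000000000000000010000000000000000000000000000000000000000000000000000000100000000000000000000000000000000000000000000000000000000000000000000000000000000000000000000000000000000000000000000000000000000000000000000000000000000000000000000000000000000000000000000000000000000000000000000000000000001000000000000000000000000000000000000000000000000000000010000000000000000000000000000000000000000000000000000000000000000000000000000000000000000000000000000000000000001000000000000000000000000000000000000000000000000000000000000000000000000000000000000000000000000000000000000000000000000000000000000000000000000000000000000000000000000000000000000000000000000000000000000000000000000000000000000000000000000000000000000000000000000000000000000000100000000000000000000000000000000000000000000000000000000000000000000000000000000000000000000000000000000000000000000000000000000000000000000000000000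000000000000000000100000000000000000000000000000000000000000000000000000004000000000000000000000000000000000000000000000000000000010000000000000000000000000000000000000000000000000000000400000000000000000000000000000000000000000000000000000001000000000000000000000000000000000000000000000000000000000000000000000000000000000000000000000000000000000000000000000000000000000000000000000000000000000000000000000000000000000000000000000000000000000000000000000000000000010000000000000000000000000000000000000000000000000000000300000000000000000000000000000000000000000000000000000003000000000000000000000000000000000000000000000000000000010000000000000000000000000000000000000000000000000000000000000000000000000000000000000000000000000000000000000000000000000000000000000000000000000000000000000000000000000000000000000000000000000000000000000000000000000000000000000000000000000000000000000000000000000000000000000001000000000000000000000000000000000000000000000000000000020000000000000000000000000000000000000000000000000000000100000000000000000000000000000000000000000000000000000000000000000000000000000000000000000000000000000000000000000000000000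00000000000000000000000000000000000000000000000000000000000000000000000000000000000000000000000000000000000000000000000000000000000000000000000000000000000000000000000000000000000000000000000000000000000000000000010000000000000000000000000000000000000000000000000000000100000000000000000000000000000000000000000000000000000000000000000000000000000000000000000000000000000000000000000000000000000000000000000000000000000000000000000000000000000000000000000000000000000000000000000000000000000000000000000000000000000000000000000000000000000000000000000000000000000000000000000000000000000000000000000000000000000000000000000000000000000000000000000000000000000001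

/-- Numbers of the roots of unity, by the residue modulo `5`. -/
def tW : ℕ := 9795

/-- Inverses of the roots of unity, by the residue modulo `5`. -/
def tO : ℕ := 25413671

/-- The number of a term with `K = k % 5`, `A, B, C, D` the residues modulo `25`. -/
noncomputable def con (K A B C D : ℕ) : ℕ :=
  force (Nat.mod (Nat.pow A 19) 25) fun a =>
  force (Nat.mod (Nat.mul (Nat.add (Nat.mul A D) (Nat.mul 20 (Nat.mul B C))) (Nat.mul a a)) 25) fun l =>
  force (Nat.mod l 5) fun x =>
  force (Nat.mod (Nat.shiftRight tO (Nat.mul 5 x)) 32) fun o =>
  Nat.shiftLeft
    (Nat.mul (Nat.mul K (Nat.add 1 (Nat.shiftLeft (Nat.div (Nat.mod (Nat.mul l o) 25) 5) 1568)))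
      (Nat.mul (Nat.mod (Nat.shiftRight tG (Nat.mul 224 (Nat.mod (Nat.mul (Nat.mul C a) o) 25))) (Nat.pow 2 224))
        (Nat.mod (Nat.shiftRight tZ (Nat.mul 1568 (Nat.mod (Nat.mul B a) 25))) (Nat.pow 2 1568))))
    (Nat.mul 3136 (Nat.mod (Nat.shiftRight tW (Nat.mul 3 x)) 8))

/-- The number of a term. -/
noncomputable def cont (t : Tm) : ℕ :=
  force (rI 5 t.1) fun K => force (rI 25 t.2.1) fun A => force (rI 25 t.2.2.1) fun B =>
  force (rI 25 t.2.2.2.1) fun C => force (rI 25 t.2.2.2.2) fun D => con K A B C D

/-- Adds the numbers of at most `2^d` terms to `N`; the first component is the rest of the list. -/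
noncomputable def run (d : ℕ) : List Tm → ℕ → List Tm × ℕ :=
  Nat.rec (motive := fun _ => List Tm → ℕ → List Tm × ℕ)
    (fun L N => List.rec (motive := fun _ => List Tm × ℕ) ([], N)
      (fun t L' _ => force (Nat.add N (cont t)) fun N' => (L', N')) L)
    (fun _ ih L N => Prod.rec (motive := fun _ => List Tm × ℕ)
      (fun L' N' => List.rec (motive := fun _ => List Tm × ℕ) ([], N')
        (fun t l _ => ih (t :: l) N') L') (ih L N)) d

/-- The digit `m` in base `b`. -/
def dg (N b m : ℕ) : ℕ := Nat.mod (Nat.div N (Nat.pow b m)) b

/-- The monomials of `M7`. -/
def mons : List (ℕ × ℕ × ℕ) := [(0, 0, 0), (1, 0, 0), (2, 0, 0), (3, 0, 0), (4, 0, 0), (5, 0, 0), (6, 0, 0), (0, 0, 1), (1, 0, 1), (2, 0, 1), (3, 0, 1), (4, 0, 1), (5, 0, 1), (0, 0, 2), (1, 0, 2), (2, 0, 2), (3, 0, 2), (4, 0, 2), (0, 0, 3), (1, 0, 3), (2, 0, 3), (3, 0, 3), (0, 0, 4), (1, 0, 4), (2, 0, 4), (0, 0, 5), (1, 0, 5), (0, 0, 6), (0, 1, 0), (1, 1, 0), (2, 1, 0), (0, 1, 1), (1, 1, 1), (0, 1, 2)]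

/-- The comparison. -/
noncomputable def chk (N : ℕ) (want : Fin 4 → ℕ → ℕ → ℕ → ℤ) : Bool :=
  List.all [(0 : Fin 4), 1, 2, 3] fun w => List.all mons fun t =>
    Nat.beq (Nat.mod (dg (dg (dg (dg N (Nat.pow 2 3136) w.val) (Nat.pow 2 1568) t.2.1) (Nat.pow 2 224) t.2.2)
      (Nat.pow 2 32) t.1) 5) (rI 5 (want w t.1 t.2.1 t.2.2))

/-- The fast check (for lists with at most `2^20` terms). -/
noncomputable def fastC (L : List Tm) (want : Fin 4 → ℕ → ℕ → ℕ → ℤ) : Bool :=
  Prod.rec (motive := fun _ => Bool) (fun L' N => List.rec (motive := fun _ => Bool) (chk N want)
    (fun _ _ _ => false) L') (run 20 L 0)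


/-! ### Residues -/

private theorem rI5 (z : ℤ) : ((rI 5 z : ℕ) : ℤ) = z % 5 := by
  cases z with
  | ofNat n =>
    change ((n % 5 : ℕ) : ℤ) = (n : ℤ) % 5
    omega
  | negSucc n =>
    change ((5 - 1 - n % 5 : ℕ) : ℤ) = Int.negSucc n % 5
    rw [Int.negSucc_eq]
    omega

private theorem rI25 (z : ℤ) : ((rI 25 z : ℕ) : ℤ) = z % 25 := by
  cases z with
  | ofNat n =>
    change ((n % 25 : ℕ) : ℤ) = (n : ℤ) % 25
    omega
  | negSucc n =>
    change ((25 - 1 - n % 25 : ℕ) : ℤ) = Int.negSucc n % 25
    rw [Int.negSucc_eq]
    omega

private theorem me25 (z : ℤ) : ((rI 25 z : ℕ) : ℤ) ≡ z [ZMOD 25] := by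
  rw [rI25]
  exact Int.mod_modEq z 25

private theorem rI5_lt (z : ℤ) : rI 5 z < 5 := by
  have h := rI5 z
  omega

/-! ### Tables -/

private theorem tabG : ∀ g < 25, Nat.mod (Nat.shiftRight tG (Nat.mul 224 g)) (Nat.pow 2 224) =
    ∑ i ∈ Finset.range 7, (g.choose i % 5) * (2 ^ 32) ^ i := by
  decide +kernel

private theorem tabZ : ∀ b < 25, Nat.mod (Nat.shiftRight tZ (Nat.mul 1568 b)) (Nat.pow 2 1568) =
    ∑ j ∈ Finset.range 7, (b.choose j % 5) * (2 ^ 224) ^ j := by
  decide +kernel

private theorem tabM : ∀ m < 5, Nat.add 1 (Nat.shiftLeft m 1568) =
    ∑ k ∈ Finset.range 2, (m.choose k % 5) * (2 ^ 1568) ^ k := by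
  decide +kernel

/-! ### The exponents -/

private theorem ex_a (t : Tm) : ((rI 25 t.2.1 ^ 19 % 25 : ℕ) : ℤ) = aI t := by
  push_cast
  exact (me25 t.2.1).pow 19

private theorem ex_b (t : Tm) : rI 25 t.2.2.1 * (rI 25 t.2.1 ^ 19 % 25) % 25 = bE t := by
  have h : ((rI 25 t.2.2.1 * (rI 25 t.2.1 ^ 19 % 25) % 25 : ℕ) : ℤ) = (t.2.2.1 * aI t) % 25 := by
    rw [Int.natCast_mod, Nat.cast_mul, ex_a]
    exact (me25 t.2.2.1).mul_right _
  unfold bE
  rw [← h, Int.toNat_natCast]

private theorem ex_l (t : Tm) : (((rI 25 t.2.1 * rI 25 t.2.2.2.2 + 20 * (rI 25 t.2.2.1 * rI 25 t.2.2.2.1)) *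
    ((rI 25 t.2.1 ^ 19 % 25) * (rI 25 t.2.1 ^ 19 % 25)) % 25 : ℕ) : ℤ) = lE t := by
  rw [Int.natCast_mod, Nat.cast_mul, Nat.cast_mul (rI 25 t.2.1 ^ 19 % 25), ex_a, Nat.cast_add, Nat.cast_mul,
    Nat.cast_mul, Nat.cast_mul]
  unfold lE
  rw [pow_two]
  refine Int.ModEq.mul_right _ ?_
  refine (((me25 t.2.1).mul (me25 t.2.2.2.2)).add (((me25 t.2.2.1).mul (me25 t.2.2.2.1)).mul_left _)).trans ?_
  refine Int.modEq_iff_dvd.2 ⟨-(t.2.2.1 * t.2.2.2.1), ?_⟩
  push_cast
  ring

private theorem tabw (l : ℕ) (t : Tm) (h : (l : ℤ) = lE t) :
    Nat.mod (Nat.shiftRight tW (Nat.mul 3 (l % 5))) 8 = (wE t).val ∧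
    ((Nat.mod (Nat.shiftRight tO (Nat.mul 5 (l % 5))) 32 : ℕ) : ℤ) = oi4 (wE t) := by
  have h1 : lE t % 5 = ((l % 5 : ℕ) : ℤ) := by rw [← h]; push_cast; rfl
  have h2 : l % 5 < 5 := Nat.mod_lt _ (by norm_num)
  unfold wE
  rw [h1]
  generalize l % 5 = x at h2
  interval_cases x <;> exact ⟨rfl, rfl⟩

/-! ### The numbers of terms -/

/-- Four-fold sum. -/
private def enc (X1 X7 X49 X98 : ℕ) (D : ℕ → ℕ → ℕ → ℕ → ℕ) : ℕ :=
  ∑ w ∈ Finset.range 4, (∑ k ∈ Finset.range 2, (∑ j ∈ Finset.range 7,
    (∑ i ∈ Finset.range 7, D w k j i * X1 ^ i) * X7 ^ j) * X49 ^ k) * X98 ^ w

private theorem enc_add (X1 X7 X49 X98 : ℕ) (D D' : ℕ → ℕ → ℕ → ℕ → ℕ) :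
    enc X1 X7 X49 X98 (fun w k j i => D w k j i + D' w k j i) =
      enc X1 X7 X49 X98 D + enc X1 X7 X49 X98 D' := by
  unfold enc
  simp only [add_mul, Finset.sum_add_distrib]

private theorem enc_zero (X1 X7 X49 X98 : ℕ) : enc X1 X7 X49 X98 (fun _ _ _ _ => 0) = 0 := by
  unfold enc
  simp

private theorem enc_prod (X1 X7 X49 X98 K w0 : ℕ) (hw : w0 < 4) (u v z : ℕ → ℕ) :
    enc X1 X7 X49 X98 (fun w k j i => if w0 = w then K * u i * v k * z j else 0) =
      K * (∑ k ∈ Finset.range 2, v k * X49 ^ k) *
        ((∑ i ∈ Finset.range 7, u i * X1 ^ i) * (∑ j ∈ Finset.range 7, z j * X7 ^ j)) * X98 ^ w0 := by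
  unfold enc
  rw [Finset.sum_eq_single w0]
  · congr 1
    simp only [if_true]
    have h1 : ∀ k j : ℕ, (∑ i ∈ Finset.range 7, (K * u i * v k * z j) * X1 ^ i) =
        K * (∑ i ∈ Finset.range 7, u i * X1 ^ i) * (v k * z j) := by
      intro k j
      rw [Finset.mul_sum, Finset.sum_mul]
      refine Finset.sum_congr rfl fun i _ => ?_
      ring
    simp only [h1]
    generalize (∑ i ∈ Finset.range 7, u i * X1 ^ i) = U
    have h2 : ∀ k : ℕ, (∑ j ∈ Finset.range 7, K * U * (v k * z j) * X7 ^ j) =
        K * U * (∑ j ∈ Finset.range 7, z j * X7 ^ j) * v k := by
      intro k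
      rw [Finset.mul_sum, Finset.sum_mul]
      refine Finset.sum_congr rfl fun j _ => ?_
      ring
    simp only [h2]
    generalize (∑ j ∈ Finset.range 7, z j * X7 ^ j) = Z
    rw [Finset.mul_sum, Finset.sum_mul]
    refine Finset.sum_congr rfl fun k _ => ?_
    ring
  · intro w _ hne
    have h0 : ∀ k j i : ℕ, (if w0 = w then K * u i * v k * z j else 0) = 0 := fun k j i =>
      if_neg (fun h => hne h.symm)
    simp only [h0, zero_mul, Finset.sum_const_zero]
  · intro h
    exact absurd (Finset.mem_range.2 hw) h

/-- The digits of a term. -/
private noncomputable def dt (t : Tm) (w k j i : ℕ) : ℕ :=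
  if (wE t).val = w then rI 5 t.1 * ((gE t).choose i % 5) * ((mE t).choose k % 5) * ((bE t).choose j % 5) else 0

private theorem cont_eq (t : Tm) :
    cont t = enc (2 ^ 32) (2 ^ 224) (2 ^ 1568) (2 ^ 3136) (dt t) := by
  have e0 : cont t = con (rI 5 t.1) (rI 25 t.2.1) (rI 25 t.2.2.1) (rI 25 t.2.2.2.1) (rI 25 t.2.2.2.2) := by
    unfold cont
    simp only [force_eq]
  rw [e0]
  unfold con
  simp only [force_eq]
  have ha := ex_a t
  have hb := ex_b t
  have hl := ex_l t
  simp only [Nat.add_eq, Nat.mul_eq, Nat.pow_eq] at *
  change Nat.shiftLeft _ _ = _
  set a : ℕ := rI 25 t.2.1 ^ 19 % 25 with hadef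
  have ha' : Nat.mod (rI 25 t.2.1 ^ 19) 25 = a := rfl
  rw [ha']
  set l : ℕ := (rI 25 t.2.1 * rI 25 t.2.2.2.2 + 20 * (rI 25 t.2.2.1 * rI 25 t.2.2.2.1)) * (a * a) % 25 with hldef
  have hl' : Nat.mod ((rI 25 t.2.1 * rI 25 t.2.2.2.2 + 20 * (rI 25 t.2.2.1 * rI 25 t.2.2.2.1)) * (a * a)) 25 = l :=
    rfl
  rw [hl']
  have hx : Nat.mod l 5 = l % 5 := rfl
  rw [hx]
  obtain ⟨h1, h2⟩ := tabw l t hl
  simp only [Nat.mul_eq] at h1 h2
  rw [h1]
  set o : ℕ := Nat.mod (Nat.shiftRight tO (5 * (l % 5))) 32 with hodef
  have hm : Nat.div (Nat.mod (l * o) 25) 5 = mE t := by
    have h : ((l * o % 25 : ℕ) : ℤ) = (lE t * oi4 (wE t)) % 25 := by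
      rw [Int.natCast_mod, Nat.cast_mul, hl, h2]
      rfl
    unfold mE
    rw [← h]
    change (l * o % 25) / 5 = _
    omega
  have hg : Nat.mod (rI 25 t.2.2.2.1 * a * o) 25 = gE t := by
    have h : ((rI 25 t.2.2.2.1 * a * o % 25 : ℕ) : ℤ) = (t.2.2.2.1 * aI t * oi4 (wE t)) % 25 := by
      rw [Int.natCast_mod, Nat.cast_mul, Nat.cast_mul, ha, h2]
      exact ((me25 t.2.2.2.1).mul_right _).mul_right _
    unfold gE
    rw [← h, Int.toNat_natCast]
    rfl
  have hb2 : Nat.mod (rI 25 t.2.2.1 * a) 25 = bE t := hb
  have hg25 : gE t < 25 := by
    rw [← hg]
    exact Nat.mod_lt _ (by norm_num)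
  have hb25 : bE t < 25 := by
    rw [← hb2]
    exact Nat.mod_lt _ (by norm_num)
  have hm5 : mE t < 5 := by
    rw [← hm]
    have : Nat.mod (l * o) 25 < 25 := Nat.mod_lt _ (by norm_num)
    exact Nat.div_lt_of_lt_mul (by omega)
  rw [hm, hg, hb2]
  have tg := tabG (gE t) hg25
  have tz := tabZ (bE t) hb25
  have tm := tabM (mE t) hm5
  simp only [Nat.add_eq, Nat.mul_eq, Nat.pow_eq] at tg tz tm
  rw [tg, tz, tm]
  have hsh : ∀ x y : ℕ, Nat.shiftLeft x y = x * 2 ^ y := fun x y => Nat.shiftLeft_eq x y
  rw [hsh, pow_mul]
  exact (enc_prod (2 ^ 32) (2 ^ 224) (2 ^ 1568) (2 ^ 3136) (rI 5 t.1) (wE t).val (wE t).isLt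
    (fun i => (gE t).choose i % 5) (fun k => (mE t).choose k % 5) (fun j => (bE t).choose j % 5)).symm

/-- The digits of a list. -/
private noncomputable def dl (L : List Tm) (w k j i : ℕ) : ℕ := (L.map fun t => dt t w k j i).sum

private theorem sum_cont (L : List Tm) :
    (L.map cont).sum = enc (2 ^ 32) (2 ^ 224) (2 ^ 1568) (2 ^ 3136) (dl L) := by
  induction L with
  | nil => exact (enc_zero _ _ _ _).symm
  | cons t L ih =>
    rw [List.map_cons, List.sum_cons, ih, cont_eq, ← enc_add]
    rfl

private theorem dt_le (t : Tm) (w k j i : ℕ) : dt t w k j i ≤ 256 := by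
  unfold dt
  split_ifs
  · have h1 : rI 5 t.1 ≤ 4 := by have := rI5_lt t.1; omega
    have h2 : (gE t).choose i % 5 ≤ 4 := by have := Nat.mod_lt ((gE t).choose i) (show 0 < 5 by norm_num); omega
    have h3 : (mE t).choose k % 5 ≤ 4 := by have := Nat.mod_lt ((mE t).choose k) (show 0 < 5 by norm_num); omega
    have h4 : (bE t).choose j % 5 ≤ 4 := by have := Nat.mod_lt ((bE t).choose j) (show 0 < 5 by norm_num); omega
    calc rI 5 t.1 * ((gE t).choose i % 5) * ((mE t).choose k % 5) * ((bE t).choose j % 5)
        ≤ 4 * 4 * 4 * 4 := Nat.mul_le_mul (Nat.mul_le_mul (Nat.mul_le_mul h1 h2) h3) h4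
      _ = 256 := by norm_num
  · omega

private theorem dl_le (L : List Tm) (w k j i : ℕ) : dl L w k j i ≤ 256 * L.length := by
  induction L with
  | nil => exact le_refl _
  | cons t L ih =>
    have h := dt_le t w k j i
    have e : dl (t :: L) w k j i = dt t w k j i + dl L w k j i := by
      unfold dl
      rw [List.map_cons, List.sum_cons]
    rw [e, List.length_cons]
    omega

private theorem dl_cS (L : List Tm) (w : Fin 4) (i k j : ℕ) :
    ((dl L w.val k j i : ℕ) : ℤ) ≡ cS L w i k j [ZMOD 5] := by
  induction L with
  | nil => exact Int.ModEq.refl _
  | cons t L ih =>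
    have e : dl (t :: L) w.val k j i = dt t w.val k j i + dl L w.val k j i := by
      unfold dl
      rw [List.map_cons, List.sum_cons]
    have e2 : cS (t :: L) w i k j = (if wE t = w then
        (t.1 : ℤ) * (((gE t).choose i * (mE t).choose k * (bE t).choose j : ℕ) : ℤ) else 0) + cS L w i k j := by
      unfold cS
      rw [List.map_cons, List.sum_cons]
    rw [e, e2, Nat.cast_add]
    refine Int.ModEq.add ?_ ih
    unfold dt
    by_cases h : wE t = w
    · rw [if_pos (congrArg Fin.val h), if_pos h]
      push_cast
      have h0 : ((rI 5 t.1 : ℕ) : ℤ) ≡ t.1 [ZMOD 5] := by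
        rw [rI5]
        exact Int.mod_modEq _ _
      have hm : ∀ n : ℕ, (n : ℤ) % 5 ≡ (n : ℤ) [ZMOD 5] := fun n => Int.mod_modEq _ _
      have h1 := ((h0.mul (hm ((gE t).choose i))).mul (hm ((mE t).choose k))).mul (hm ((bE t).choose j))
      refine h1.trans ?_
      rw [show (t.1 : ℤ) * ((gE t).choose i : ℤ) * ((mE t).choose k : ℤ) * ((bE t).choose j : ℤ) =
        t.1 * (((gE t).choose i : ℤ) * ((mE t).choose k : ℤ) * ((bE t).choose j : ℤ)) by ring]
    · rw [if_neg (fun h1 => h (Fin.ext h1)), if_neg h]
      rfl

/-! ### Digits -/

private theorem dig (b : ℕ) (n : ℕ) : ∀ f : ℕ → ℕ, (∀ i, f i < b) →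
    (∑ i ∈ Finset.range n, f i * b ^ i < b ^ n) ∧
    ∀ m < n, (∑ i ∈ Finset.range n, f i * b ^ i) / b ^ m % b = f m := by
  induction n with
  | zero =>
    intro f hf
    exact ⟨by simp, fun m hm => absurd hm (Nat.not_lt_zero m)⟩
  | succ n ih =>
    intro f hf
    have hb : 0 < b := lt_of_le_of_lt (Nat.zero_le _) (hf 0)
    obtain ⟨h1, h2⟩ := ih (fun i => f (i + 1)) (fun i => hf (i + 1))
    set S := ∑ i ∈ Finset.range n, f (i + 1) * b ^ i with hS
    have e : ∑ i ∈ Finset.range (n + 1), f i * b ^ i = b * S + f 0 := by
      rw [Finset.sum_range_succ', hS, Finset.mul_sum, pow_zero, mul_one]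
      congr 1
      refine Finset.sum_congr rfl fun i _ => ?_
      rw [pow_succ]
      ring
    rw [e]
    refine ⟨?_, ?_⟩
    · calc b * S + f 0 < b * S + b := by have := hf 0; omega
        _ = b * (S + 1) := by ring
        _ ≤ b * b ^ n := Nat.mul_le_mul_left _ h1
        _ = b ^ (n + 1) := by rw [pow_succ]; ring
    · intro m hm
      cases m with
      | zero =>
        rw [pow_zero, Nat.div_one, Nat.mul_add_mod, Nat.mod_eq_of_lt (hf 0)]
      | succ m =>
        have h3 : (b * S + f 0) / b = S := by
          rw [Nat.mul_add_div hb, Nat.div_eq_of_lt (hf 0), add_zero]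
        rw [pow_succ', ← Nat.div_div_eq_div_mul, h3]
        exact h2 m (by omega)

private theorem dg_enc (X1 X7 X49 X98 : ℕ) (h7 : X7 = X1 ^ 7) (h49 : X49 = X7 ^ 7) (h98 : X98 = X49 ^ 2)
    (D : ℕ → ℕ → ℕ → ℕ → ℕ) (hD : ∀ w k j i, D w k j i < X1) (w k j i : ℕ) (hw : w < 4) (hk : k < 2)
    (hj : j < 7) (hi : i < 7) :
    dg (dg (dg (dg (enc X1 X7 X49 X98 D) X98 w) X49 k) X7 j) X1 i = D w k j i := by
  have l1 : ∀ w k j, ∑ i ∈ Finset.range 7, D w k j i * X1 ^ i < X7 := by
    intro w k j
    rw [h7]
    exact (dig X1 7 _ (hD w k j)).1
  have l2 : ∀ w k, ∑ j ∈ Finset.range 7, (∑ i ∈ Finset.range 7, D w k j i * X1 ^ i) * X7 ^ j < X49 := by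
    intro w k
    rw [h49]
    exact (dig X7 7 _ (l1 w k)).1
  have l3 : ∀ w, ∑ k ∈ Finset.range 2, (∑ j ∈ Finset.range 7,
      (∑ i ∈ Finset.range 7, D w k j i * X1 ^ i) * X7 ^ j) * X49 ^ k < X98 := by
    intro w
    rw [h98]
    exact (dig X49 2 _ (l2 w)).1
  have e1 : dg (enc X1 X7 X49 X98 D) X98 w = _ := (dig X98 4 _ l3).2 w hw
  rw [e1]
  have e2 := (dig X49 2 _ (l2 w)).2 k hk
  have e2' : dg (∑ k ∈ Finset.range 2, (∑ j ∈ Finset.range 7,
      (∑ i ∈ Finset.range 7, D w k j i * X1 ^ i) * X7 ^ j) * X49 ^ k) X49 k = _ := e2
  rw [e2']
  have e3 : dg (∑ j ∈ Finset.range 7, (∑ i ∈ Finset.range 7, D w k j i * X1 ^ i) * X7 ^ j) X7 j = _ :=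
    (dig X7 7 _ (l1 w k)).2 j hj
  rw [e3]
  exact (dig X1 7 _ (hD w k j)).2 i hi

/-! ### The pass -/

private theorem run_spec (d : ℕ) : ∀ (L : List Tm) (N : ℕ), ∃ P : List Tm, L = P ++ (run d L N).1 ∧
    P.length ≤ 2 ^ d ∧ (run d L N).2 = N + (P.map cont).sum := by
  induction d with
  | zero =>
    intro L N
    cases L with
    | nil => exact ⟨[], rfl, Nat.zero_le _, rfl⟩
    | cons t L =>
      have e : run 0 (t :: L) N = (L, N + cont t) := by
        change force (Nat.add N (cont t)) (fun N' => (L, N')) = _
        rw [force_eq]
        rfl
      rw [e]
      exact ⟨[t], rfl, le_refl _, by simp⟩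
  | succ d ih =>
    intro L N
    obtain ⟨P, h1, h2, h3⟩ := ih L N
    have e : run (d + 1) L N = List.rec (motive := fun _ => List Tm × ℕ) ([], (run d L N).2)
        (fun t l _ => run d (t :: l) (run d L N).2) (run d L N).1 := rfl
    rw [e]
    cases hL : (run d L N).1 with
    | nil =>
      rw [hL] at h1
      exact ⟨P, h1, h2.trans (Nat.pow_le_pow_right (by norm_num) (by omega)), h3⟩
    | cons t l =>
      rw [hL] at h1
      obtain ⟨Q, k1, k2, k3⟩ := ih (t :: l) (run d L N).2
      refine ⟨P ++ Q, ?_, ?_, ?_⟩
      · rw [List.append_assoc]
        change L = P ++ (Q ++ (run d (t :: l) (run d L N).2).1)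
        rw [← k1]
        exact h1
      · rw [List.length_append, pow_succ]
        omega
      · change (run d (t :: l) (run d L N).2).2 = _
        rw [k3, h3, List.map_append, List.sum_append]
        ring

private theorem mons_mem : ∀ t ∈ M7, t ∈ mons ∧ t.1 < 7 ∧ t.2.1 < 2 ∧ t.2.2 < 7 := by
  decide +kernel

private theorem fin_mem : ∀ w : Fin 4, w ∈ [(0 : Fin 4), 1, 2, 3] := by
  decide

/-- The fast check gives the divisibilities. -/
theorem cS_fast (L : List Tm) (want : Fin 4 → ℕ → ℕ → ℕ → ℤ) (h : fastC L want = true) :
    ∀ w : Fin 4, ∀ t ∈ M7, (5 : ℤ) ∣ cS L w t.1 t.2.1 t.2.2 - want w t.1 t.2.1 t.2.2 := by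
  intro w t ht
  obtain ⟨P, h1, h2, h3⟩ := run_spec 20 L 0
  have e : fastC L want = List.rec (motive := fun _ => Bool) (chk (run 20 L 0).2 want)
    (fun _ _ _ => false) (run 20 L 0).1 := rfl
  rw [e] at h
  cases hL : (run 20 L 0).1 with
  | cons t l =>
    rw [hL] at h
    exact absurd (show false = true from h) Bool.false_ne_true
  | nil =>
    rw [hL] at h h1
    have hc : chk (run 20 L 0).2 want = true := h
    rw [List.append_nil] at h1
    subst h1
    rw [h3, zero_add, sum_cont] at hc
    obtain ⟨m1, m2, m3, m4⟩ := mons_mem t ht
    unfold chk at hc
    have h5 := List.all_eq_true.1 (List.all_eq_true.1 hc w (fin_mem w)) t m1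
    have h6 := Nat.eq_of_beq_eq_true h5
    have hd := dg_enc (2 ^ 32) (2 ^ 224) (2 ^ 1568) (2 ^ 3136) (by rw [← pow_mul]) (by rw [← pow_mul])
      (by rw [← pow_mul]) (dl L) (fun w k j i => lt_of_le_of_lt (dl_le L w k j i) (by
        calc 256 * L.length ≤ 256 * 2 ^ 20 := Nat.mul_le_mul_left _ h2
          _ < 2 ^ 32 := by norm_num)) w.val t.2.1 t.2.2 t.1 w.isLt m3 m4 m2
    simp only [Nat.pow_eq] at h6
    rw [hd] at h6
    have h7 : ((dl L w.val t.2.1 t.2.2 t.1 : ℕ) : ℤ) ≡ want w t.1 t.2.1 t.2.2 [ZMOD 5] := by
      have h8 : ((dl L w.val t.2.1 t.2.2 t.1 % 5 : ℕ) : ℤ) = want w t.1 t.2.1 t.2.2 % 5 := by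
        rw [← rI5]
        exact congrArg _ h6
      rw [Int.natCast_mod] at h8
      exact h8
    exact (h7.symm.trans (dl_cS L w t.1 t.2.1 t.2.2)).dvd

end Pool.Agent.Helper16.T7
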